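import Pool.Agent.TH262.SawL.HalfE
import Pool.Agent.TH262.SawL.Xi

/-!
The half-plane self-avoiding walk on `ℤ²`.  The law of the end point of the uniform `n`-step walk in
the closed upper half plane is, at every point of the closed half plane, comparable with the law of
the end point of the full-plane walk, up to a factor `exp (± K (log n)^3)`.  So it satisfies the
same local large deviation estimate, uniformly up to the boundary, and its size has the exponent of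
the correlation length.
-/

set_option autoImplicit false

namespace Pool.Agent.Results.MP_df1d0b_pr.EndPointFullPlane

open Filter Topology

/-- `ω` is an `n`-step self-avoiding walk on `ℤ²` started at the origin. -/
def IsSAW (n : ℕ) (ω : Fin (n + 1) → ℤ × ℤ) : Prop :=
  ω 0 = (0, 0) ∧
  (∀ i : Fin n, |(ω i.succ).1 - (ω i.castSucc).1| + |(ω i.succ).2 - (ω i.castSucc).2| = 1) ∧
  Function.Injective ω

/-- the walk stays in the closed upper half plane -/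
def InHalf (n : ℕ) (ω : Fin (n + 1) → ℤ × ℤ) : Prop := ∀ i, 0 ≤ (ω i).2

/-- `c_n`: the number of `n`-step self-avoiding walks from the origin -/
noncomputable def c (n : ℕ) : ℕ := Nat.card {ω : Fin (n + 1) → ℤ × ℤ // IsSAW n ω}

/-- `c_n(x)`: the number of `n`-step self-avoiding walks from the origin to `x` -/
noncomputable def cx (n : ℕ) (x : ℤ × ℤ) : ℕ :=
  Nat.card {ω : Fin (n + 1) → ℤ × ℤ // IsSAW n ω ∧ ω (Fin.last n) = x}

/-- the number of `n`-step self-avoiding walks from the origin in the closed upper half plane -/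
noncomputable def h (n : ℕ) : ℕ := Nat.card {ω : Fin (n + 1) → ℤ × ℤ // IsSAW n ω ∧ InHalf n ω}

/-- the number of those that end at `x` -/
noncomputable def hx (n : ℕ) (x : ℤ × ℤ) : ℕ :=
  Nat.card {ω : Fin (n + 1) → ℤ × ℤ // IsSAW n ω ∧ ω (Fin.last n) = x ∧ InHalf n ω}

/-- `P_n(ω(n) = x)` for the uniform `n`-step self-avoiding walk in the plane -/
noncomputable def P (n : ℕ) (x : ℤ × ℤ) : ℝ := (cx n x : ℝ) / (c n : ℝ)

/-- `P⁺_n(ω(n) = x)` for the uniform `n`-step self-avoiding walk in the half plane -/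
noncomputable def PH (n : ℕ) (x : ℤ × ℤ) : ℝ := (hx n x : ℝ) / (h n : ℝ)

/-- the two-point function `G_z(x) = ∑_n c_n(x) z^n` of the full-plane walk -/
noncomputable def G (z : ℝ) (x : ℤ × ℤ) : ℝ := ∑' n : ℕ, (cx n x : ℝ) * z ^ n

/-- Euclidean norm of a lattice point -/
noncomputable def len (x : ℤ × ℤ) : ℝ := Real.sqrt ((x.1 : ℝ) ^ 2 + (x.2 : ℝ) ^ 2)

/-- `P⁺_n[|ω(n)| ≥ r]` for the uniform `n`-step self-avoiding walk in the half plane -/
noncomputable def farH (n : ℕ) (r : ℝ) : ℝ :=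
  (Nat.card {ω : Fin (n + 1) → ℤ × ℤ // IsSAW n ω ∧ InHalf n ω ∧ r ≤ len (ω (Fin.last n))} : ℝ) /
    (h n : ℝ)

theorem c_eq (n : ℕ) : c n = TH795.EP.c n := TH795.EP.card_walks n

theorem cx_eq (n : ℕ) (x : ℤ × ℤ) : cx n x = TH795.EP.a n x.1 x.2 := TH795.EP.card_walks_to n x

theorem hi_iff {n : ℕ} {w : List H981.St} (hw : w.length = n) :
    TH262.SawL.Hi w ↔ InHalf n (TH795.EP.ew n w) := by
  constructor
  · intro h i
    exact h i
  · intro h k
    rcases Nat.lt_or_ge k (n + 1) with h1 | h1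
    · exact h ⟨k, h1⟩
    · rw [TH262.SawL.path_ge (by omega), hw]
      exact h ⟨n, by omega⟩

theorem h_eq (n : ℕ) : h n = TH262.SawL.hp n := by
  rw [← TH262.SawL.card_hi_all]
  apply TH795.EP.ncard_eq n (fun w => TH262.SawL.Hi w) (fun ω => InHalf n ω)
  intro w hw
  exact hi_iff hw

theorem hx_eq (n : ℕ) (x : ℤ × ℤ) : hx n x = TH262.SawL.la n x.1 (-x.2) := by
  rw [← TH262.SawL.card_hi]
  apply TH795.EP.ncard_eq n (fun w => (H981.dx w = x.1 ∧ H981.dy w = x.2) ∧ TH262.SawL.Hi w)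
    (fun ω => ω (Fin.last n) = x ∧ InHalf n ω)
  intro w hw
  rw [TH795.EP.ew_last n hw, hi_iff hw]
  constructor
  · rintro ⟨⟨h1, h2⟩, h3⟩; exact ⟨Prod.ext h1 h2, h3⟩
  · rintro ⟨h1, h2⟩
    exact ⟨⟨congrArg Prod.fst h1, congrArg Prod.snd h1⟩, h2⟩

theorem farH_eq (n : ℕ) (r : ℝ) : farH n r = TH262.SawL.farp n r := by
  unfold farH TH262.SawL.farp
  rw [h_eq]
  congr 2
  have e1 := TH795.EP.ncard_eq n (fun w => TH262.SawL.Hi w ∧
    r ≤ Real.sqrt ((H981.dx w : ℝ) ^ 2 + (H981.dy w : ℝ) ^ 2))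
    (fun ω => InHalf n ω ∧ r ≤ len (ω (Fin.last n))) (by
      intro w hw
      rw [TH795.EP.ew_last n hw, hi_iff hw]
      rfl)
  refine Eq.trans e1 ?_
  apply le_antisymm
  · apply TH795.EP.card_le_of_decode H981.ng
    intro w hw
    rw [TH795.EP.mem_fs] at hw
    obtain ⟨⟨h1, h2, h3⟩, h4⟩ := hw
    refine ⟨H981.ng w, TH795.EP.mem_fs.2 ⟨⟨h1.ng, fun k => ?_, ?_⟩, ?_⟩, H981.ng_ng w⟩
    · rw [TH262.SawL.path_ng_snd]
      have := h2 k
      omega
    · rw [H981.dx_ng, H981.dy_ng]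
      push_cast
      rw [neg_sq]
      exact h3
    · rw [H981.length_ng, h4]
  · apply TH795.EP.card_le_of_decode H981.ng
    intro w hw
    rw [TH795.EP.mem_fs] at hw
    obtain ⟨⟨h1, h2, h3⟩, h4⟩ := hw
    refine ⟨H981.ng w, TH795.EP.mem_fs.2 ⟨⟨h1.ng, fun k => ?_, ?_⟩, ?_⟩, H981.ng_ng w⟩
    · rw [TH262.SawL.path_ng_snd]
      have := h2 k
      omega
    · rw [H981.dx_ng, H981.dy_ng]
      push_cast
      rw [neg_sq]
      exact h3
    · rw [H981.length_ng, h4]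

theorem G_eq (z : ℝ) (k : ℕ) : G z ((k : ℤ), 0) = TH262.SawL.Gz z k 0 := by
  unfold G TH262.SawL.Gz
  apply tsum_congr
  intro n
  rw [cx_eq]

/-- **Theorem.** (1) There are a constant `K` and a convex function `I` on the square
`|v₁| + |v₂| ≤ 1` such that for every `n ≥ 2` and every lattice point `x ≠ 0` of the closed upper
half plane which an `n`-step walk can reach (`x₁ + x₂ ≡ n (mod 2)` and `|x₁| + |x₂| ≤ n`)
`|log P⁺_n(ω(n) = x) - log P_n(ω(n) = x)| ≤ K (log n)^3` and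
`|log P⁺_n(ω(n) = x) + n I(x / n)| ≤ K (log n)^4`.
(2) Let `μ = lim c_n^(1/n)`.  For `0 < z < 1/μ` the correlation length
`ξ(z) = (lim_k - (1/k) log G_z((k, 0)))^(-1)` of the full-plane walk exists and is positive and
finite, and for every `θ` in `(0, 1)`:
(a) `ξ(z) ≤ (1/μ - z)^(-θ-o(1))` as `z ↑ 1/μ` if and only if for every `ε > 0` there is `δ > 0` with
`P⁺_n[|ω(n)| ≥ n^(θ+ε)] ≤ exp (- n^δ)` for all large `n`;
(b) `ξ(z) ≥ (1/μ - z)^(-θ+o(1))` as `z ↑ 1/μ` if and only if for all `ε, δ > 0`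
`P⁺_n[|ω(n)| ≥ n^(θ-ε)] ≥ exp (- n^δ)` for all large `n`. -/
theorem result :
    (∃ (K : ℝ) (I : ℝ × ℝ → ℝ), ConvexOn ℝ {v : ℝ × ℝ | |v.1| + |v.2| ≤ 1} I ∧
      ∀ n : ℕ, 2 ≤ n → ∀ x : ℤ × ℤ, x ≠ 0 → 0 ≤ x.2 → (x.1 + x.2 - n) % 2 = 0 →
        |x.1| + |x.2| ≤ n →
        |Real.log (PH n x) - Real.log (P n x)| ≤ K * Real.log n ^ 3 ∧
        |Real.log (PH n x) + n * I ((x.1 : ℝ) / n, (x.2 : ℝ) / n)| ≤ K * Real.log n ^ 4) ∧
    ∃ (μ : ℝ) (ξ : ℝ → ℝ), 0 < μ ∧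
      Tendsto (fun n : ℕ => (c n : ℝ) ^ (1 / (n : ℝ))) atTop (𝓝 μ) ∧
      (∀ z : ℝ, 0 < z → z < 1 / μ → 0 < ξ z ∧
        Tendsto (fun k : ℕ => - Real.log (G z ((k : ℤ), 0)) / k) atTop (𝓝 (1 / ξ z))) ∧
      ∀ θ : ℝ, 0 < θ → θ < 1 →
        ((∀ ε : ℝ, 0 < ε → ∀ᶠ z in 𝓝[<] (1 / μ), ξ z ≤ (1 / μ - z) ^ (-(θ + ε))) ↔
          (∀ ε : ℝ, 0 < ε → ∃ δ : ℝ, 0 < δ ∧ ∀ᶠ n : ℕ in atTop,
            farH n ((n : ℝ) ^ (θ + ε)) ≤ Real.exp (-(n : ℝ) ^ δ))) ∧
        ((∀ ε : ℝ, 0 < ε → ∀ᶠ z in 𝓝[<] (1 / μ), (1 / μ - z) ^ (-(θ - ε)) ≤ ξ z) ↔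
          (∀ ε : ℝ, 0 < ε → ∀ δ : ℝ, 0 < δ → ∀ᶠ n : ℕ in atTop,
            Real.exp (-(n : ℝ) ^ δ) ≤ farH n ((n : ℝ) ^ (θ - ε)))) := by
  refine ⟨?_, H981.mu, TH262.SawL.xi, H981.mu_pos, ?_, ?_, ?_⟩
  · obtain ⟨K1, hK1, h1⟩ := TH262.SawL.half_law
    obtain ⟨K2, hK2, h2⟩ := TH262.SawL.ldp_words
    refine ⟨2 * K1 + K2, TH262.SawL.Rate, TH262.SawL.convex_rate, ?_⟩
    intro n hn x hx hx2 hpar hle
    have hlog := TH795.EP.log_pos' hn
    have hne : (x.1, x.2) ≠ ((0, 0) : ℤ × ℤ) := hx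
    have hne' : (x.1, -x.2) ≠ ((0, 0) : ℤ × ℤ) := by
      intro h
      obtain ⟨h1, h2⟩ := Prod.mk.inj h
      exact hx (Prod.ext h1 (by simpa using h2))
    have g1 := h1 n hn x.1 (-x.2) (by omega) hne' (by omega) (by rwa [abs_neg])
    have g2 := h2 n hn x.1 x.2 hne hpar hle
    obtain ⟨-, -, g3⟩ := g1
    rw [TH795.EP.a_ng] at g3
    have e1 : PH n x = (TH262.SawL.la n x.1 (-x.2) : ℝ) / TH262.SawL.hp n := by
      unfold PH
      rw [h_eq, hx_eq]
    have e2 : P n x = (TH795.EP.a n x.1 x.2 : ℝ) / TH795.EP.c n := by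
      unfold P
      rw [c_eq, cx_eq]
    rw [← e1, ← e2] at g3
    rw [← e2] at g2
    have h3 : 0 ≤ Real.log (n : ℝ) ^ 3 := pow_nonneg hlog.le 3
    have h4 : 0 ≤ Real.log (n : ℝ) ^ 4 := pow_nonneg hlog.le 4
    have h34 := (TH262.SawL.pow_le_four hn).1
    have m1 := mul_nonneg hK1 h3
    have m2 := mul_nonneg hK2 h3
    have m3 := mul_le_mul_of_nonneg_left h34 hK1
    obtain ⟨g4, g5⟩ := abs_le.1 g3
    obtain ⟨g6, g7⟩ := abs_le.1 g2
    constructor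
    · rw [abs_le]
      constructor <;> linarith
    · rw [abs_le]
      constructor <;> linarith
  · have h := H981.tendsto_root
    refine h.congr ?_
    intro n
    rw [c_eq, TH795.EP.c_eq]
  · intro z hz hz1
    have hmu := H981.mu_pos
    have he : 0 < -Real.log (z * H981.mu) := by
      have h1 : z * H981.mu < 1 := by rwa [lt_div_iff₀ hmu] at hz1
      have h2 := Real.log_neg (mul_pos hz hmu) h1
      linarith
    have hm := TH262.SawL.mass_pos he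
    constructor
    · unfold TH262.SawL.xi
      positivity
    · have h := TH262.SawL.G_tendsto hz hz1
      unfold TH262.SawL.xi
      rw [one_div_one_div]
      refine h.congr ?_
      intro k
      rw [G_eq]
  · intro θ h0 h1
    simp only [farH_eq]
    constructor
    · rw [← TH262.SawL.xi_upper θ h0]
      refine Iff.trans ?_ (TH262.SawL.halfUp_iff θ).symm
      exact ⟨TH262.SawL.massLow_sizeUp, TH262.SawL.sizeUp_massLow h0 h1⟩
    · rw [← TH262.SawL.xi_lower θ h0]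
      refine Iff.trans ?_ (TH262.SawL.halfLow_iff θ).symm
      exact ⟨TH262.SawL.massUp_sizeLow h0 h1, TH262.SawL.sizeLow_massUp h0 h1⟩

end Pool.Agent.Results.MP_df1d0b_pr.EndPointFullPlane
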