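import Pool.Agent.TH546.HP.Wid

/-! # The pieces of a half-plane self-avoiding walk on `ℤ²`, uniformly in its length -/

set_option autoImplicit false

namespace Pool.Agent.Results.MP_df1d0b_pr.HalfPlanePieces

open scoped Classical

/-- `ω` is a self-avoiding walk with `n` steps on `ℤ²` which starts at the origin. -/
def SAW (n : ℕ) (ω : Fin (n + 1) → ℤ × ℤ) : Prop :=
  ω 0 = (0, 0) ∧
  (∀ i : Fin n, |(ω i.succ).1 - (ω i.castSucc).1| + |(ω i.succ).2 - (ω i.castSucc).2| = 1) ∧
  Function.Injective ω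

/-- The (finite) set of the self-avoiding walks with `n` steps. -/
def walks (n : ℕ) : Set (Fin (n + 1) → ℤ × ℤ) := {ω | SAW n ω}

/-- The set of the self-avoiding walks with `n` steps which stay in the closed upper half-plane. -/
def halfWalks (n : ℕ) : Set (Fin (n + 1) → ℤ × ℤ) := {ω | SAW n ω ∧ ∀ i, 0 ≤ (ω i).2}

/-- The mean under the uniform probability measure on the half-plane walks with `n` steps. -/
noncomputable def mean (n : ℕ) (f : (Fin (n + 1) → ℤ × ℤ) → ℝ) : ℝ :=
  (∑ᶠ ω ∈ halfWalks n, f ω) / (halfWalks n).ncard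

/-- The probability of `A` under the uniform measure on the half-plane walks with `n` steps. -/
noncomputable def prob (n : ℕ) (A : Set (Fin (n + 1) → ℤ × ℤ)) : ℝ :=
  mean n (fun ω => if ω ∈ A then 1 else 0)

/-- The piece with `m` steps which starts at time `i`, shifted to the origin:
`k ↦ ω(i + k) - ω(i)`. (It is only used for `i + m ≤ n`, when the minima play no role.) -/
def piece {n : ℕ} (i m : ℕ) (ω : Fin (n + 1) → ℤ × ℤ) : Fin (m + 1) → ℤ × ℤ :=
  fun k => ω ⟨min (i + k.1) n, by omega⟩ - ω ⟨min i n, by omega⟩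

/-- For a uniform half-plane walk with `n` steps, the relative entropy of the joint law of the `j`
consecutive pieces with `m` steps which start at the times `i, i + m, …, i + (j - 1) m`, with
respect to the `j`-fold product of the uniform measure on the (full-plane) self-avoiding walks with
`m` steps. (The piece with `jm` steps which starts at `i` determines the `j` pieces and is
determined by them, and every `j`-tuple has mass `|walks m|⁻ʲ` under the product measure.) -/
noncomputable def relEnt (n i m j : ℕ) : ℝ :=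
  ∑ᶠ v ∈ walks (j * m), prob n {ω | piece i (j * m) ω = v} *
    Real.log (prob n {ω | piece i (j * m) ω = v} / (1 / ((walks m).ncard : ℝ)) ^ j)

/-- The two sites of the walk are neighbours on `ℤ²`. -/
def touch {n : ℕ} (ω : Fin (n + 1) → ℤ × ℤ) (a b : Fin (n + 1)) : Prop :=
  |(ω b).1 - (ω a).1| + |(ω b).2 - (ω a).2| = 1

/-- The sum of `min (b - a, m)` over the contacts `(a, b)` of the walk, that is, over the pairs of
times with `a + 1 < b` and `|ω(a) - ω(b)| = 1`; `b - a + 1` is the length of the loop which the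
contact closes. -/
noncomputable def loopLength {n : ℕ} (m : ℕ) (ω : Fin (n + 1) → ℤ × ℤ) : ℕ :=
  ∑ q ∈ (Finset.univ : Finset (Fin (n + 1) × Fin (n + 1))).filter
    (fun q => q.1.1 + 1 < q.2.1 ∧ touch ω q.1 q.2), min (q.2.1 - q.1.1) m

/-- the Euclidean diameter of a path -/
noncomputable def diam {m : ℕ} (v : Fin (m + 1) → ℤ × ℤ) : ℝ :=
  ⨆ q : Fin (m + 1) × Fin (m + 1),
    Real.sqrt (((v q.1).1 - (v q.2).1 : ℝ) ^ 2 + ((v q.1).2 - (v q.2).2 : ℝ) ^ 2)

open Pool.Agent.TH546.SAW in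
theorem walks_eq (n : ℕ) : walks n = (W n : Set (Fin (n + 1) → ℤ × ℤ)) := by
  ext ω
  rw [Finset.mem_coe, mem_W]
  rfl

open Pool.Agent.TH546.SAW Pool.Agent.TH546.HP in
theorem halfWalks_eq (n : ℕ) : halfWalks n = (HW n : Set (Fin (n + 1) → ℤ × ℤ)) := by
  ext ω
  rw [Finset.mem_coe, mem_HW]
  rfl

open Pool.Agent.TH546.SAW Pool.Agent.W840.CT in
theorem ncard_walks (n : ℕ) : (walks n).ncard = cn n := by
  rw [walks_eq, Set.ncard_coe_finset, card_W]

open Pool.Agent.TH546.SAW Pool.Agent.W840.CT Pool.Agent.TH546.HP in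
theorem mean_eq (n : ℕ) (f : (Fin (n + 1) → ℤ × ℤ) → ℝ) :
    mean n f = (∑ ω ∈ HW n, f ω) / (HW n).card := by
  unfold mean
  rw [halfWalks_eq, Set.ncard_coe_finset, finsum_mem_coe_finset]

open Pool.Agent.TH546.SAW Pool.Agent.W840.CT in
theorem piece_eq {n i m : ℕ} (ω : Fin (n + 1) → ℤ × ℤ) (h : i + m ≤ n) :
    piece i m ω = pc i m ω := by
  funext k
  have hk := k.2
  unfold piece pc ex
  have e1 : min (i + k.1) n = i + k.1 := by omega
  have e2 : min i n = i := by omega
  rw [dif_pos (by omega), dif_pos (by omega)]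
  simp only [e1, e2]

open Pool.Agent.TH546.SAW Pool.Agent.W840.CT Pool.Agent.TH546.PB in
theorem diam_eq {n i m : ℕ} (ω : Fin (n + 1) → ℤ × ℤ) (h : i + m ≤ n) :
    diam (piece i m ω) = dm (pc i m ω) := by
  rw [piece_eq ω h]
  rfl

open Pool.Agent.TH546.SAW Pool.Agent.W840.CT Pool.Agent.TH546.HP in
theorem prob_eq (n : ℕ) (A : Set (Fin (n + 1) → ℤ × ℤ)) :
    prob n A = (((HW n).filter (fun ω => ω ∈ A)).card : ℝ) / (HW n).card := by
  unfold prob
  rw [mean_eq, Finset.card_filter]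
  push_cast
  rfl

open Pool.Agent.TH546.SAW Pool.Agent.W840.CT Pool.Agent.TH546.HP in
theorem part1 : ∃ K : ℝ, 0 ≤ K ∧ ∀ m j n : ℕ, 2 ≤ m → 1 ≤ j → j * m ≤ n →
    ∑ i ∈ Finset.range (n - j * m + 1), relEnt n i m j ≤ K * j * n * Real.log m ^ 2 := by
  obtain ⟨C, hC, hbig⟩ := big_HW
  obtain ⟨K1, hK1, h1⟩ := Pool.Agent.TH546.HP.entropy (p := 2) (by norm_num)
    Pool.Agent.TH546.SG.CU2 hC
  refine ⟨K1, hK1, fun m j n hm hj hjn => ?_⟩
  have hn2 : 2 ≤ n := by
    have : 1 * m ≤ j * m := Nat.mul_le_mul_right _ hj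
    omega
  have e : n - j * m + 1 = n + 1 - j * m := by omega
  rw [e]
  have e1 : ∀ i ∈ Finset.range (n + 1 - j * m), relEnt n i m j =
      ∑ v ∈ W (j * m), Pool.Agent.TH546.HP.law n (HW n) i (j * m) v *
        Real.log (Pool.Agent.TH546.HP.law n (HW n) i (j * m) v * (cn m : ℝ) ^ j) := by
    intro i hi
    rw [Finset.mem_range] at hi
    unfold relEnt
    rw [walks_eq, finsum_mem_coe_finset]
    refine Finset.sum_congr rfl (fun v _ => ?_)
    have e2 : prob n {ω | piece i (j * m) ω = v} = Pool.Agent.TH546.HP.law n (HW n) i (j * m) v := by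
      rw [prob_eq]
      unfold Pool.Agent.TH546.HP.law
      congr 1
      refine congrArg Nat.cast (congrArg Finset.card ?_)
      ext ω
      simp only [Finset.mem_filter, Set.mem_ofPred_eq]
      rw [piece_eq ω (by omega)]
    rw [e2, ncard_walks]
    congr 2
    rw [one_div, inv_pow, div_inv_eq_mul]
  rw [Finset.sum_congr rfl e1]
  exact h1 m j n hm hj hjn (HW n) (hbig n hn2)

open Pool.Agent.TH546.SAW Pool.Agent.W840.CT Pool.Agent.TH546.HP in
theorem part2 : ∃ K : ℝ, 0 ≤ K ∧ ∀ m n : ℕ, 2 ≤ m → m ≤ n →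
    mean n (fun ω => (loopLength m ω : ℝ)) ≤ K * n * Real.log m ^ 2 := by
  obtain ⟨C, hC, hbig⟩ := big_HW
  obtain ⟨K4, hK4, h4⟩ := Pool.Agent.TH546.HP.loop_mean (p := 2) (by norm_num)
    Pool.Agent.TH546.SG.CU2 hC
  obtain ⟨K5, hK5, h5⟩ := Pool.Agent.TH546.HP.far_mean (p := 2) (by norm_num)
    Pool.Agent.TH546.SG.CU2 hC
  refine ⟨K4 + K5, by positivity, fun m n hm hmn => ?_⟩
  have hm' : (2 : ℝ) ≤ m := by exact_mod_cast hm
  have hB := hbig n (by omega)
  have hcn : (0 : ℝ) < (HW n).card := hB.pos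
  rw [mean_eq, div_le_iff₀ hcn]
  have e1 : ∀ ω ∈ HW n, (loopLength m ω : ℝ) ≤ (LL n m ω : ℝ) + m * (FF n m ω : ℝ) := by
    intro ω _
    have e2 : loopLength m ω ≤ LL n m ω + m * FF n m ω := by
      unfold loopLength LL CP FF
      have hsub : (Finset.univ : Finset (Fin (n + 1) × Fin (n + 1))).filter
          (fun q => q.1.1 + 1 < q.2.1 ∧ touch ω q.1 q.2) ⊆
          (Finset.univ : Finset (Fin (n + 1) × Fin (n + 1))).filter
          (fun q => q.1.1 + 1 < q.2.1 ∧ q.2.1 ≤ q.1.1 + m ∧ adj (ω q.1) (ω q.2)) ∪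
          (Finset.univ : Finset (Fin (n + 1) × Fin (n + 1))).filter
          (fun q => q.1.1 + m < q.2.1 ∧ adj (ω q.1) (ω q.2)) := by
        intro q hq
        simp only [Finset.mem_filter, Finset.mem_univ, true_and, Finset.mem_union] at hq ⊢
        obtain ⟨g1, g2⟩ := hq
        rcases Nat.lt_or_ge (q.1.1 + m) q.2.1 with h | h
        · exact Or.inr ⟨h, g2⟩
        · exact Or.inl ⟨g1, h, g2⟩
      refine (Finset.sum_le_sum_of_subset hsub).trans ?_
      refine le_trans (b := (∑ q ∈ (Finset.univ : Finset (Fin (n + 1) × Fin (n + 1))).filter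
          (fun q => q.1.1 + 1 < q.2.1 ∧ q.2.1 ≤ q.1.1 + m ∧ adj (ω q.1) (ω q.2)),
            min (q.2.1 - q.1.1) m) +
          ∑ q ∈ (Finset.univ : Finset (Fin (n + 1) × Fin (n + 1))).filter
          (fun q => q.1.1 + m < q.2.1 ∧ adj (ω q.1) (ω q.2)), min (q.2.1 - q.1.1) m)
          (by rw [← Finset.sum_union_inter]; exact Nat.le_add_right _ _) ?_
      refine add_le_add (Finset.sum_le_sum (fun q _ => min_le_left _ _)) ?_
      calc _ ≤ ∑ q ∈ (Finset.univ : Finset (Fin (n + 1) × Fin (n + 1))).filter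
            (fun q => q.1.1 + m < q.2.1 ∧ adj (ω q.1) (ω q.2)), m :=
            Finset.sum_le_sum (fun q _ => min_le_right _ _)
        _ = _ := by rw [Finset.sum_const, smul_eq_mul, mul_comm]
    exact_mod_cast e2
  calc ∑ ω ∈ HW n, (loopLength m ω : ℝ)
      ≤ ∑ ω ∈ HW n, ((LL n m ω : ℝ) + m * (FF n m ω : ℝ)) := Finset.sum_le_sum e1
    _ = ∑ ω ∈ HW n, (LL n m ω : ℝ) + m * ∑ ω ∈ HW n, (FF n m ω : ℝ) := by
        rw [Finset.sum_add_distrib, Finset.mul_sum]
    _ ≤ (HW n).card * (K4 * n * Real.log m ^ 2) +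
        m * ((HW n).card * (K5 * (n / m) * Real.log m ^ 2)) := by
        have g4 := h4 m n hm (by omega) (HW n) hB
        have g5 := h5 m n hm (by omega) (HW n) hB
        gcongr
    _ = _ := by
        field_simp

open Pool.Agent.TH546.SAW Pool.Agent.W840.CT Pool.Agent.TH546.PB Pool.Agent.TH546.HP in
theorem part3 : ∃ c K : ℝ, 0 < c ∧ 0 < K ∧ ∀ m n : ℕ, 16 ≤ m → m ≤ n →
    ∑ i ∈ Finset.range (n - m + 1),
        prob n {ω | (m : ℝ) ^ (1 - c / Real.log (Real.log m)) ≤ diam (piece i m ω)} ≤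
      K * n * Real.log m ^ 2 / (m : ℝ) ^ (4 / 5 : ℝ) ∧
    ∑ i ∈ Finset.range (n - m + 1), mean n (fun ω => diam (piece i m ω)) ≤
      K * n * (m : ℝ) ^ (1 - c / Real.log (Real.log m)) := by
  obtain ⟨C, hC, hbig⟩ := big_HW
  obtain ⟨c, K, hc, hK, h⟩ := set_diam hC
  refine ⟨c, K, hc, hK, fun m n hm hmn => ?_⟩
  have hB := hbig n (by omega)
  have hcn : (0 : ℝ) < (HW n).card := hB.pos
  obtain ⟨h1, h2⟩ := h m n hm hmn (HW n) hB
  have e : n - m + 1 = n + 1 - m := by omega
  rw [e]
  constructor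
  · have e1 : ∀ i ∈ Finset.range (n + 1 - m),
        prob n {ω | (m : ℝ) ^ (1 - c / Real.log (Real.log m)) ≤ diam (piece i m ω)} =
        (((HW n).filter (fun ω => Pool.Agent.H924P.G.Y c m ≤ dm (pc i m ω))).card : ℝ) /
          (HW n).card := by
      intro i hi
      rw [Finset.mem_range] at hi
      rw [prob_eq]
      congr 1
      refine congrArg Nat.cast (congrArg Finset.card ?_)
      ext ω
      simp only [Finset.mem_filter, Set.mem_ofPred_eq]
      rw [diam_eq ω (show i + m ≤ n by omega)]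
      rfl
    rw [Finset.sum_congr rfl e1, ← Finset.sum_div, div_le_div_iff₀ hcn (by positivity)]
    calc _ ≤ ((HW n).card : ℝ) * (n * (K * Real.log m ^ 2)) := h1
      _ = _ := by ring
  · have e1 : ∀ i ∈ Finset.range (n + 1 - m), mean n (fun ω => diam (piece i m ω)) =
        (∑ ω ∈ HW n, dm (pc i m ω)) / (HW n).card := by
      intro i hi
      rw [Finset.mem_range] at hi
      rw [mean_eq]
      congr 1
      exact Finset.sum_congr rfl (fun ω _ => diam_eq ω (show i + m ≤ n by omega))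
    rw [Finset.sum_congr rfl e1, ← Finset.sum_div, div_le_iff₀ hcn]
    unfold Pool.Agent.H924P.G.Y at h2
    calc _ ≤ ((HW n).card : ℝ) * (n * (K * (m : ℝ) ^ (1 - c / Real.log (Real.log m)))) := h2
      _ = _ := by ring

/-- **The pieces of a long half-plane self-avoiding walk.** There are constants `c, K > 0` such
that for the uniform `n`-step self-avoiding walk in the closed upper half-plane of `ℤ²`, uniformly
in `n ≥ jm`:
(1) the relative entropies of `j` consecutive pieces with `m` steps with respect to `j` independent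
uniform full-plane self-avoiding walks with `m` steps have sum at most `K j n (log m)²` over the
starting times;
(2) the sum of `min (b - a, m)` over the contacts `(a, b)` has mean at most `K n (log m)²`;
(3) the mean number of the `m`-step pieces with diameter at least `m^(1 - c / log log m)` is at most
`K n (log m)² / m^(4/5)`, and the sum of the mean diameters of the `m`-step pieces is at most
`K n m^(1 - c / log log m)`. -/
theorem result : ∃ c K : ℝ, 0 < c ∧ 0 < K ∧
    (∀ m j n : ℕ, 2 ≤ m → 1 ≤ j → j * m ≤ n →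
      ∑ i ∈ Finset.range (n - j * m + 1), relEnt n i m j ≤ K * j * n * Real.log m ^ 2) ∧
    (∀ m n : ℕ, 2 ≤ m → m ≤ n →
      mean n (fun ω => (loopLength m ω : ℝ)) ≤ K * n * Real.log m ^ 2) ∧
    (∀ m n : ℕ, 16 ≤ m → m ≤ n →
      ∑ i ∈ Finset.range (n - m + 1),
          prob n {ω | (m : ℝ) ^ (1 - c / Real.log (Real.log m)) ≤ diam (piece i m ω)} ≤
        K * n * Real.log m ^ 2 / (m : ℝ) ^ (4 / 5 : ℝ) ∧
      ∑ i ∈ Finset.range (n - m + 1), mean n (fun ω => diam (piece i m ω)) ≤
        K * n * (m : ℝ) ^ (1 - c / Real.log (Real.log m))) := by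
  obtain ⟨K1, hK1, h1⟩ := part1
  obtain ⟨K2, hK2, h2⟩ := part2
  obtain ⟨c, K3, hc, hK3, h3⟩ := part3
  refine ⟨c, K1 + K2 + K3, hc, by positivity, fun m j n hm hj hjn => ?_, fun m n hm hmn => ?_,
    fun m n hm hmn => ⟨?_, ?_⟩⟩
  · refine (h1 m j n hm hj hjn).trans ?_
    have : K1 ≤ K1 + K2 + K3 := by linarith
    gcongr
  · refine (h2 m n hm hmn).trans ?_
    have : K2 ≤ K1 + K2 + K3 := by linarith
    gcongr
  · refine (h3 m n hm hmn).1.trans ?_
    have : K3 ≤ K1 + K2 + K3 := by linarith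
    gcongr
  · refine (h3 m n hm hmn).2.trans ?_
    have : K3 ≤ K1 + K2 + K3 := by linarith
    gcongr

end Pool.Agent.Results.MP_df1d0b_pr.HalfPlanePieces
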