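import Pool.Agent.TH232.WX.CutC

set_option autoImplicit false

/-!
# Cut lines of the infinite half-plane self-avoiding walk on the hexagonal grid
-/

namespace Pool.Agent.Results.MP_df1d0b_pr.RenewalDecay

open Filter Topology MeasureTheory

/-- `e^{iπ/3}` -/
noncomputable def Om : ℂ := ⟨1 / 2, Real.sqrt 3 / 2⟩

/-- the hexagonal grid with edge length one and a vertex at `0` (the triangular grid without the
centres of the hexagons) -/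
def HexG : Set ℂ := {z | ∃ a b : ℤ, (a - b) % 3 ≠ 2 ∧ z = a + b * Om}

/-- the grid `Λ` multiplied by `u` -/
def rot (u : ℂ) (Λ : Set ℂ) : Set ℂ := {z | ∃ w ∈ Λ, z = u * w}

/-- self-avoiding walks with `n` steps in the closed upper half-plane, starting at `0`, with steps of
length `r` between points of `Λ`; a walk is continued by its last point -/
def PW (Λ : Set ℂ) (r : ℝ) (n : ℕ) : Set (ℕ → ℂ) :=
  {γ | γ 0 = 0 ∧ (∀ i, γ i ∈ Λ ∧ 0 ≤ (γ i).im) ∧ (∀ i < n, ‖γ (i + 1) - γ i‖ = r) ∧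
    (∀ i ≤ n, ∀ j ≤ n, γ i = γ j → i = j) ∧ ∀ i, n ≤ i → γ i = γ n}

/-- the line `Im z = y` is a cut line of `γ`: up to some time `γ` is below or on the line, and
afterwards it is strictly above -/
def CutLine (y : ℝ) (γ : ℕ → ℂ) : Prop :=
  ∃ k : ℕ, (∀ i ≤ k, (γ i).im ≤ y) ∧ ∀ i, k < i → y < (γ i).im

/-- For the hexagonal grid of edge length `‖u‖` with a vertex at `0` and an edge at `0`
perpendicular to the real line, the infinite half-plane self-avoiding walk (the weak limit `μ` of the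
uniform measures on `n`-step half-plane walks) satisfies:
(1) the probability that there is a cut line at a height in `[t, t + s]` is at most
`15 (1 + s / ‖u‖) (t / ‖u‖)^(-0.115)`, for all `t ≥ ‖u‖` and `s ≥ 0`;
(2) for every `θ > 0.885`, almost surely for all large `N` at most `N^θ` of the `N` rows
`n ‖u‖ ≤ Im z ≤ (n + 1) ‖u‖`, `n < N`, contain a cut line. -/
theorem result (u : ℂ) (hu : u ≠ 0) (hv : ∃ z ∈ rot u HexG, ‖z‖ = ‖u‖ ∧ z.re = 0) :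
    ∃ μ : Measure (ℕ → ℂ), IsProbabilityMeasure μ ∧
      (∀ᵐ γ ∂μ, γ 0 = 0 ∧ (∀ i, γ i ∈ rot u HexG ∧ 0 ≤ (γ i).im) ∧
        (∀ i, ‖γ (i + 1) - γ i‖ = ‖u‖) ∧ Function.Injective γ) ∧
      (∀ F : BoundedContinuousFunction (ℕ → ℂ) ℝ,
        Tendsto (fun n => (∑ᶠ γ ∈ PW (rot u HexG) ‖u‖ n, F γ) /
          ((PW (rot u HexG) ‖u‖ n).ncard : ℝ)) atTop (𝓝 (∫ γ, F γ ∂μ))) ∧
      (∀ t s : ℝ, ‖u‖ ≤ t → 0 ≤ s → μ {γ | ∃ y ∈ Set.Icc t (t + s), CutLine y γ} ≤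
        ENNReal.ofReal (15 * (1 + s / ‖u‖) * (t / ‖u‖) ^ (-(23 / 200) : ℝ))) ∧
      ∀ θ : ℝ, 177 / 200 < θ → ∀ᵐ γ ∂μ, ∀ᶠ N : ℕ in atTop,
        (Set.ncard {n : ℕ | n < N ∧
          ∃ y ∈ Set.Icc ((n : ℝ) * ‖u‖) (((n : ℝ) + 1) * ‖u‖), CutLine y γ} : ℝ) ≤
            (N : ℝ) ^ θ := by
  obtain ⟨c0, hc, E, hE⟩ := Pool.Agent.W818.TD.emb_vert u hu hv
  obtain ⟨μ, h1, h2, h3, h4⟩ :=
    Pool.Agent.H976R3.HPL.concl_of_emb E Pool.Agent.H976R3.HPL.facts_hexA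
  have := h1
  have hr : 0 < ‖u‖ := norm_pos_iff.2 hu
  have hw : ∀ t s : ℝ, ‖u‖ ≤ t → 0 ≤ s → μ {γ | ∃ y ∈ Set.Icc t (t + s), CutLine y γ} ≤
      ENNReal.ofReal (15 * (1 + s / ‖u‖) * (t / ‖u‖) ^ (-(23 / 200) : ℝ)) :=
    fun t s ht hs => Pool.Agent.TH232.WX.Cut.window hc hr E hE μ h2 h3 ht hs
  exact ⟨μ, h1, h2, h4, hw, fun θ hθ => Pool.Agent.TH232.WX.Cut.as_count μ hr hw θ hθ⟩

end Pool.Agent.Results.MP_df1d0b_pr.RenewalDecay
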